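import Pool.Agent.Y332.SM.Fin

set_option autoImplicit false

/-!
# Invariant sets of the standard map have extremely long boundaries; mixing at finite scales

Let `S_a (x, y) = (2x - y + a sin 2πx, x)` on the torus, with `|a| ≥ 256` (NO parameter is excluded).
Ergodicity (part of the conjecture of Sinai) says that an invariant set has area `0` or `1`. Here: an
invariant set whose area lies in `[η, 1 - η]` has a boundary of length at least about
`|a| ^ (η |a| / 12)`; more precisely its boundary is so wild that the neighbourhood of radius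
`|a| ^ (-n / 4)` of the boundary has area at least `η - 3 n / |a| - 4 / √|a|`, for all `n`; and the
map is mixing down to the scale `|a| ^ (-n / 4)` up to times `n` of order `|a|`, outside a set of
area `O(n / |a| + 1 / √|a|)`.

The proof is elementary and geometric: for most points, the image of a very short horizontal
segment around the point by `S_a^n` contains a nearly horizontal curve which goes around the torus; the
image of a very short vertical segment by `S_a^(-m)` contains a nearly vertical curve which goes around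
the torus; two such curves meet.
-/

open Real MeasureTheory
open scoped ENNReal

namespace Pool.Agent.Results.MP_9ee088_an.LongBoundaries

/-- The torus `ℝ² / ℤ²`, with its Lebesgue measure `volume` and the sup distance. -/
abbrev Torus := UnitAddCircle × UnitAddCircle

/-- `T` is the standard map `S_a` of the torus. -/
def IsStandardMap (a : ℝ) (T : Torus → Torus) : Prop :=
  ∀ x y : ℝ, T ((x : UnitAddCircle), (y : UnitAddCircle)) =
    (((2 * x - y + a * sin (2 * π * x) : ℝ) : UnitAddCircle), (x : UnitAddCircle))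

/-- The error `3 n / |a| + 4 / √|a|`. -/
noncomputable def err (a : ℝ) (n : ℕ) : ℝ := 3 * n / |a| + 4 / √|a|

/-- The scale `|a| ^ (-n / 4)`. -/
noncomputable def scale (a : ℝ) (n : ℕ) : ℝ := |a| ^ (-(n : ℝ) / 4)

/-- The area of the invariant set `A`, and of its complement, is at least `η`. -/
structure InvariantBetween (T : Torus → Torus) (η : ℝ) (A : Set Torus) : Prop where
  invariant : T ⁻¹' A = A
  area : ENNReal.ofReal η ≤ volume A
  areaCompl : ENNReal.ofReal η ≤ volume Aᶜ

theorem sqrt_ge {a : ℝ} (ha : 256 ≤ |a|) : 16 ≤ √|a| := by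
  apply Real.le_sqrt_of_sq_le
  norm_num
  exact ha

theorem scale_ge {a : ℝ} (ha : 256 ≤ |a|) (n : ℕ) :
    (1 / √√|a|) ^ (n + 1) / 5 ≤ scale a n := by
  have ha0 : 0 < |a| := by linarith
  have h1 : 1 / √√|a| = |a| ^ (-(1:ℝ) / 4) := by
    rw [Real.sqrt_eq_rpow, Real.sqrt_eq_rpow, ← Real.rpow_mul ha0.le, one_div, ← Real.rpow_neg ha0.le]
    norm_num
  have h2 : (1 / √√|a|) ^ n = scale a n := by
    unfold scale
    rw [h1, ← Real.rpow_natCast, ← Real.rpow_mul ha0.le]
    congr 1
    ring
  have h3 : 0 < √√|a| := Real.sqrt_pos.2 (Real.sqrt_pos.2 ha0)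
  have h4 : 1 / √√|a| ≤ 1 := by
    rw [div_le_one h3]
    apply Real.le_sqrt_of_sq_le
    have := sqrt_ge ha
    linarith
  rw [pow_succ, h2]
  have h5 : 0 ≤ scale a n := by
    unfold scale
    positivity
  have h6 : 0 < 1 / √√|a| := by positivity
  nlinarith

theorem err_ge {a : ℝ} (ha : 256 ≤ |a|) (n : ℕ) :
    3 * n / |a| + 3.71 / √|a| ≤ err a n := by
  unfold err
  have h := sqrt_ge ha
  have h2 : (3.71:ℝ) / √|a| ≤ 4 / √|a| := div_le_div_of_nonneg_right (by norm_num) (by linarith)
  linarith

/-- **Invariant sets and finite-scale mixing of the standard map, for every parameter `|a| ≥ 256`.** -/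
theorem result (a : ℝ) (ha : 256 ≤ |a|) (T : Torus → Torus) (hT : IsStandardMap a T) :
    -- (1) the boundary of an invariant set, at the scales `|a| ^ (-n / 4)`
    (∀ (η : ℝ) (A : Set Torus), InvariantBetween T η A → ∀ n : ℕ, 1 ≤ n →
      ENNReal.ofReal η ≤ ENNReal.ofReal (err a n) +
        volume (Metric.cthickening (scale a n) (frontier A))) ∧
    -- (2) the length of the boundary of an invariant set
    (∀ (η : ℝ) (A : Set Torus), InvariantBetween T η A →
      ENNReal.ofReal (|a| ^ ((η * |a| - 5 * √|a|) / 12)) ≤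
        1 + 2 * Measure.hausdorffMeasure 1 (frontier A)) ∧
    -- (3) mixing at the scales `|a| ^ (-n / 4)`
    (∃ P Q : ℕ → Set Torus,
      (∀ n, 1 ≤ n → MeasurableSet (P n) ∧ MeasurableSet (Q n) ∧
        volume (P n)ᶜ ≤ ENNReal.ofReal (err a n) ∧ volume (Q n)ᶜ ≤ ENNReal.ofReal (err a n)) ∧
      ∀ n m, 1 ≤ n → 1 ≤ m → ∀ p ∈ P n, ∀ q ∈ Q m, ∃ p' q' : Torus,
        dist p p' ≤ scale a n ∧ dist q q' ≤ scale a m ∧ T^[n + m] p' = q') := by
  have hTS : T = TH705.SM.S a := TH705.SM.eq_S a T hT
  have hM := sqrt_ge ha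
  have haM : |a| = √|a| ^ 2 := (Real.sq_sqrt (abs_nonneg a)).symm
  rw [hTS]
  refine ⟨?_, ?_, ?_⟩
  · intro η A hA n hn
    have h := Y332.SM.alt_thick hM haM hn hA.invariant hA.area hA.areaCompl
    refine h.trans (add_le_add (ENNReal.ofReal_le_ofReal (err_ge ha n)) ?_)
    exact measure_mono (Metric.cthickening_mono (scale_ge ha n) _)
  · intro η A hA
    exact Y332.SM.length hM haM hA.invariant hA.area hA.areaCompl
  · refine ⟨fun n => (toMeasurable volume (Y332.SM.bad a (√|a|) n))ᶜ,
      fun n => Prod.swap ⁻¹' (toMeasurable volume (Y332.SM.bad a (√|a|) n))ᶜ, ?_, ?_⟩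
    · intro n hn
      have h1 : volume (Y332.SM.bad a (√|a|) n) ≤ ENNReal.ofReal (err a n) :=
        (Y332.SM.vol_bad hM haM hn).trans (ENNReal.ofReal_le_ofReal (err_ge ha n))
      refine ⟨(measurableSet_toMeasurable _ _).compl,
        (measurableSet_toMeasurable _ _).compl.preimage measurable_swap, ?_, ?_⟩
      · rw [compl_compl, measure_toMeasurable]
        exact h1
      · rw [← Set.preimage_compl, compl_compl, Y332.SM.vol_swap, measure_toMeasurable]
        exact h1
    · intro n m hn hm p hp q hq
      obtain ⟨p', q', h1, h2, h3⟩ := Y332.SM.mixing hM haM hn hm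
        (fun h => hp (subset_toMeasurable _ _ h)) (fun h => hq (subset_toMeasurable _ _ h))
      exact ⟨p', q', h1.trans (scale_ge ha n), h2.trans (scale_ge ha m), h3⟩

end Pool.Agent.Results.MP_9ee088_an.LongBoundaries
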