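import Pool.Agent.TH705.SM.CltI
import Pool.Agent.TH705.SM.CltE

set_option autoImplicit false

/-!
# Diffusion of the momentum of the standard map, for every large parameter

`F_a(x, y) = (2x - y + a sin 2πx, x)` is the lift of `S_a` to the plane; `x_k` is the first coordinate
of the `k`-th point of the orbit of `(x, y) = (x_0, x_(-1))` and `p_k = x_k - x_(k-1)` the momentum, so
that `p_n - p_0 = a ∑_(k<n) sin 2π x_k`.  For EVERY large parameter `a`, on EVERY horizontal line and up
to times `n ≤ |a|^(1 - ε)`, the Birkhoff sums of all `C¹` observables of mean zero behave like sums of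
independent random variables: central limit theorem with a rate. For the observable `√2 sin 2πx` this
is the quasilinear (Chirikov) diffusion of the momentum: `(p_n - p_0) / (a √(n / 2))` is asymptotically
a standard normal variable.
-/

open Real MeasureTheory Filter Topology ProbabilityTheory

namespace Pool.Agent.Results.MP_9ee088_an.MomentumDiffusion

/-- The lift `(x, y) ↦ (2 x - y + a sin 2 π x, x)` of `S_a` to the plane. -/
noncomputable def planeMap (a : ℝ) (p : ℝ × ℝ) : ℝ × ℝ :=
  (2 * p.1 - p.2 + a * sin (2 * π * p.1), p.1)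

/-- The coordinate `x_k` of the `k`-th point of the orbit of `(x, y)`. -/
noncomputable def coord (a : ℝ) (k : ℕ) (x y : ℝ) : ℝ := ((planeMap a)^[k] (x, y)).1

/-- The momentum `p_k = x_k - x_(k-1)` of the `k`-th point of the orbit of `(x, y)`. -/
noncomputable def momentum (a : ℝ) (k : ℕ) (x y : ℝ) : ℝ :=
  ((planeMap a)^[k] (x, y)).1 - ((planeMap a)^[k] (x, y)).2

/-- The normalised Birkhoff sum `n^(-1/2) (f(x_0) + ⋯ + f(x_(n-1)))`. -/
noncomputable def birkhoff (f : ℝ → ℝ) (a : ℝ) (n : ℕ) (x y : ℝ) : ℝ :=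
  (∑ k ∈ Finset.range n, f (coord a k x y)) / √n

/-- `f` is a `C¹` function of period one and mean zero, bounded by `M` together with its derivative,
of variance `v`. -/
structure Observable (M v : ℝ) (f : ℝ → ℝ) : Prop where
  smooth : ContDiff ℝ 1 f
  periodic : Function.Periodic f 1
  bound : ∀ x, |f x| ≤ M
  boundDeriv : ∀ x, |deriv f x| ≤ M
  mean : ∫ x in (0:ℝ)..1, f x = 0
  variance : ∫ x in (0:ℝ)..1, f x ^ 2 = v

/-- The error `n^(-1/2) + (n / |a|)^(1/2) (1 + log |a|)`. -/
noncomputable def rate (a : ℝ) (n : ℕ) : ℝ := 1 / √n + √(n / |a|) * (1 + log |a|)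

/-- The parameters `a_j` and the times `n_j ≥ 1` are such that the error tends to zero. -/
structure Admissible (a : ℕ → ℝ) (n : ℕ → ℕ) : Prop where
  param : ∀ j, 1 ≤ |a j|
  time : ∀ j, 1 ≤ n j
  rate : Tendsto (fun j => rate (a j) (n j)) atTop (𝓝 0)

theorem coord_eq (a : ℝ) (k : ℕ) (x y : ℝ) : coord a k x y = TH705.SM.X a y (k + 1) x := by
  have h := TH705.SM.iter_plane a y x k
  show ((fun p : ℝ × ℝ => (2 * p.1 - p.2 + a * sin (2 * π * p.1), p.1))^[k] (x, y)).1 = _
  rw [h]

theorem momentum_eq (a : ℝ) (k : ℕ) (x y : ℝ) :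
    momentum a k x y = TH705.SM.X a y (k + 1) x - TH705.SM.X a y k x := by
  have h := TH705.SM.iter_plane a y x k
  show ((fun p : ℝ × ℝ => (2 * p.1 - p.2 + a * sin (2 * π * p.1), p.1))^[k] (x, y)).1 -
    ((fun p : ℝ × ℝ => (2 * p.1 - p.2 + a * sin (2 * π * p.1), p.1))^[k] (x, y)).2 = _
  rw [h]

theorem Observable.hasDeriv {M v : ℝ} {f : ℝ → ℝ} (h : Observable M v f) (x : ℝ) :
    HasDerivAt f (deriv f x) x :=
  (h.smooth.differentiable (by norm_num) x).hasDerivAt

theorem Observable.contDeriv {M v : ℝ} {f : ℝ → ℝ} (h : Observable M v f) :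
    Continuous (deriv f) := h.smooth.continuous_deriv (by norm_num)

/-- the limit law for the Birkhoff sums -/
theorem law {M v : ℝ} {f : ℝ → ℝ} (h : Observable M v f) (hv : 0 < v) {a : ℕ → ℝ} {n : ℕ → ℕ}
    (han : Admissible a n) (y : ℕ → ℝ) (z : ℝ) :
    Tendsto (fun j => volume {x : ℝ | x ∈ Set.Ioc (0:ℝ) 1 ∧ birkhoff f (a j) (n j) x (y j) ≤ z})
      atTop (𝓝 (gaussianReal 0 v.toNNReal (Set.Iic z))) := by
  have h1 := TH705.SM.clt_seq (rate := rate) (fun M hM => TH705.SM.clt2 hM) h.hasDeriv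
    h.contDeriv h.periodic h.mean hv h.variance han.param han.time han.rate y z
  unfold birkhoff
  simp_rw [coord_eq]
  exact h1

/-- the observable `√2 sin 2πx` -/
noncomputable def wave (x : ℝ) : ℝ := √2 * sin (2 * π * x)

theorem wave_hasDeriv (x : ℝ) : HasDerivAt wave (√2 * (2 * π * cos (2 * π * x))) x := by
  have h1 : HasDerivAt (fun x : ℝ => 2 * π * x) (2 * π) x := by
    simpa using (hasDerivAt_id x).const_mul (2 * π)
  have h2 := (h1.sin).const_mul (√2)
  refine h2.congr_deriv ?_
  ring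

theorem wave_obs : Observable (√2 * (2 * π)) 1 wave := by
  have hs : ContDiff ℝ 1 wave := by
    unfold wave
    fun_prop
  have hpi := pi_gt_three
  have h2 : (0:ℝ) ≤ √2 := Real.sqrt_nonneg 2
  refine ⟨hs, ?_, ?_, ?_, ?_, ?_⟩
  · intro x
    unfold wave
    have : 2 * π * (x + 1) = 2 * π * x + 2 * π := by ring
    rw [this, sin_add_two_pi]
  · intro x
    unfold wave
    rw [abs_mul, abs_of_nonneg h2]
    refine mul_le_mul_of_nonneg_left ((abs_sin_le_one _).trans (by linarith)) h2
  · intro x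
    rw [(wave_hasDeriv x).deriv, abs_mul, abs_of_nonneg h2]
    refine mul_le_mul_of_nonneg_left ?_ h2
    rw [abs_mul, abs_of_nonneg (by positivity)]
    exact mul_le_of_le_one_right (by positivity) (abs_cos_le_one _)
  · unfold wave
    rw [intervalIntegral.integral_const_mul, TH705.SM.sin_int, mul_zero]
  · have e : ∀ x : ℝ, wave x ^ 2 = 2 * sin (2 * π * x) ^ 2 := by
      intro x
      unfold wave
      rw [mul_pow, Real.sq_sqrt (by norm_num)]
    simp_rw [e]
    rw [intervalIntegral.integral_const_mul]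
    have h := intervalIntegral.integral_comp_mul_left (a := 0) (b := 1) (fun x => sin x ^ 2)
      (c := 2 * π) (by positivity)
    rw [h, integral_sin_sq]
    simp only [mul_zero, sin_zero, cos_zero, mul_one, sin_two_pi, cos_two_pi, smul_eq_mul]
    field_simp
    ring

/-- **Diffusion for every large parameter.** -/
theorem result :
    -- (1) central limit theorem with a rate: all observables, parameters, horizontal lines
    (∀ M : ℝ, 0 ≤ M → ∃ C : ℝ, 0 < C ∧ ∀ (v : ℝ) (f : ℝ → ℝ), Observable M v f →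
      ∀ a : ℝ, 1 ≤ |a| → ∀ n : ℕ, 1 ≤ n → ∀ y τ : ℝ,
      ‖(∫ x in (0:ℝ)..1, Complex.exp (((τ * birkhoff f a n x y : ℝ) : ℂ) * Complex.I)) -
        ((exp (-(τ ^ 2 * v / 2)) : ℝ) : ℂ)‖ ≤ C * (1 + |τ|) ^ 4 * rate a n) ∧
    -- (2) convergence in distribution to the normal law with the variance of the observable
    (∀ (M v : ℝ) (f : ℝ → ℝ), Observable M v f → 0 < v → ∀ (a : ℕ → ℝ) (n : ℕ → ℕ),
      Admissible a n → ∀ (y : ℕ → ℝ) (z : ℝ),
      Tendsto (fun j => volume {x : ℝ | x ∈ Set.Ioc (0:ℝ) 1 ∧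
        birkhoff f (a j) (n j) x (y j) ≤ z}) atTop
        (𝓝 (gaussianReal 0 v.toNNReal (Set.Iic z)))) ∧
    -- (3) diffusion of the momentum
    (∀ (a : ℕ → ℝ) (n : ℕ → ℕ), Admissible a n → ∀ (y : ℕ → ℝ) (z : ℝ),
      Tendsto (fun j => volume {x : ℝ | x ∈ Set.Ioc (0:ℝ) 1 ∧
        (momentum (a j) (n j) x (y j) - momentum (a j) 0 x (y j)) / (a j * √(n j / 2)) ≤ z}) atTop
        (𝓝 (gaussianReal 0 1 (Set.Iic z)))) := by
  refine ⟨?_, ?_, ?_⟩
  · intro M hM
    obtain ⟨C, hC, H⟩ := TH705.SM.clt2 hM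
    refine ⟨C, hC, fun v f hf a ha n hn y τ => ?_⟩
    have h := H f (deriv f) hf.hasDeriv hf.contDeriv hf.periodic hf.bound hf.boundDeriv hf.mean v
      hf.variance a ha n hn y τ
    have e : ∀ x, Complex.exp (((τ * birkhoff f a n x y : ℝ) : ℂ) * Complex.I) =
        TH705.SM.E (τ / √n * ∑ k ∈ Finset.range n, f (TH705.SM.X a y (k + 1) x)) := by
      intro x
      unfold TH705.SM.E birkhoff
      simp_rw [coord_eq]
      congr 3
      ring
    simp_rw [e]
    exact h
  · intro M v f hf hv a n han y z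
    exact law hf hv han y z
  · intro a n han y z
    have h := law wave_obs one_pos han y z
    rw [Real.toNNReal_one] at h
    refine h.congr fun j => ?_
    congr 1
    ext x
    have hn : (0:ℝ) < n j := by exact_mod_cast han.time j
    have ha : a j ≠ 0 := by
      intro h0
      have := han.param j
      rw [h0, abs_zero] at this
      linarith
    have key : birkhoff wave (a j) (n j) x (y j) =
        (momentum (a j) (n j) x (y j) - momentum (a j) 0 x (y j)) / (a j * √(n j / 2)) := by
      have h1 := TH705.SM.momentum (a j) (y j) x (n j)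
      have h2 : momentum (a j) 0 x (y j) = x - y j := rfl
      rw [momentum_eq, h2, h1]
      unfold birkhoff wave
      simp_rw [coord_eq]
      rw [← Finset.mul_sum, Real.sqrt_div hn.le]
      have h3 : √(n j : ℝ) ≠ 0 := (Real.sqrt_pos.2 hn).ne'
      have h4 : √(2:ℝ) ≠ 0 := by positivity
      field_simp
    simp only [Set.mem_ofPred_eq]
    rw [key]

end Pool.Agent.Results.MP_9ee088_an.MomentumDiffusion
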