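import Pool.Agent.Y779.SM.Asym

set_option autoImplicit false

/-!
# Near ergodicity of the standard map for all large parameters

Let `S_a (x, y) = (2x - y + a sin 2πx, x)` on the torus, with area `m`.  The conjecture of Sinai asks
for many `a` such that all invariant sets have area `0` or `1`.  Here, with NO parameter excluded:
every invariant set is almost independent of every rectangle, with an error which tends to `0` like a
power of `1/|a|`; the same for all `L²` eigenfunctions of the Koopman operator (near weak mixing);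
the frequency of visits of almost every orbit to a rectangle is close to its area in `L²`.
The source is the decay of correlations of rectangles up to times `n ≪ |a|`.
For arbitrary Borel sets the same statements hold in the limit `|a| → ∞`: an invariant set, an
eigenfunction, the frequency of visits become independent of any fixed Borel set.
-/

open Real MeasureTheory Filter Topology

namespace Pool.Agent.Results.MP_9ee088_an.NearErgodicity

/-- The torus `ℝ² / ℤ²`, with its Lebesgue measure `volume` of total mass `1`. -/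
abbrev Torus := UnitAddCircle × UnitAddCircle

/-- `T` is the standard map `S_a` of the torus. -/
def IsStandardMap (a : ℝ) (T : Torus → Torus) : Prop :=
  ∀ x y : ℝ, T ((x : UnitAddCircle), (y : UnitAddCircle)) =
    (((2 * x - y + a * sin (2 * π * x) : ℝ) : UnitAddCircle), (x : UnitAddCircle))

/-- The area of a subset of the torus, as a real number. -/
noncomputable def area (R : Set Torus) : ℝ := (volume : Measure Torus).real R

/-- Vertical strips: `R = E × J`, with `E` any Borel set and `J` any closed arc of the circle. -/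
def IsVertical (R : Set Torus) : Prop :=
  ∃ E : Set UnitAddCircle, MeasurableSet E ∧ ∃ (c : UnitAddCircle) (r : ℝ),
    R = E ×ˢ Metric.closedBall c r

/-- Horizontal strips: `R = J × E`, with `E` any Borel set and `J` any closed arc of the circle. -/
def IsHorizontal (R : Set Torus) : Prop :=
  ∃ E : Set UnitAddCircle, MeasurableSet E ∧ ∃ (c : UnitAddCircle) (r : ℝ),
    R = Metric.closedBall c r ×ˢ E

/-- `f p` is the frequency of visits of the orbit of `p` to `R`, for almost every `p`; the function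
`f` is measurable and invariant. -/
structure IsFrequency (T : Torus → Torus) (R : Set Torus) (f : Torus → ℝ) : Prop where
  measurable : Measurable f
  invariant : ∀ p, f (T p) = f p
  tendsto : ∀ᵐ p : Torus, Tendsto (fun N : ℕ => ({k : ℕ | k < N ∧ T^[k] p ∈ R}.ncard : ℝ) / N)
    atTop (𝓝 (f p))

theorem ncard_eq (T : Torus → Torus) (R : Set Torus) (p : Torus) (N : ℕ)
    [DecidablePred fun k => T^[k] p ∈ R] :
    ((Finset.range N).filter fun k => T^[k] p ∈ R).card = {k : ℕ | k < N ∧ T^[k] p ∈ R}.ncard := by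
  rw [← Set.ncard_coe_finset]
  congr 1
  ext k
  simp

theorem ww_eq (a : ℝ) (R : Set Torus) : Y779.SM.ww a R = (area R / |a|) ^ (1 / 3 : ℝ) := rfl

theorem sqrt_ww (a : ℝ) (R : Set Torus) :
    √(Y779.SM.C2 * Y779.SM.ww a R) ≤ Y779.SM.C2 * (area R / |a|) ^ (1 / 6 : ℝ) := by
  have h0 : 0 ≤ area R / |a| := div_nonneg measureReal_nonneg (abs_nonneg a)
  have h1 : 1 ≤ Y779.SM.C2 := by
    have := TH705.SM.KK_one
    have := TH705.SM.l0_ge
    have h2 : 0 ≤ 2 * (208 * TH705.SM.KK * π ^ 2) := by positivity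
    unfold Y779.SM.C2
    linarith
  rw [sqrt_mul (by linarith), ww_eq, sqrt_eq_rpow ((area R / |a|) ^ (1 / 3 : ℝ)), ← rpow_mul h0]
  norm_num
  apply mul_le_mul_of_nonneg_right _ (rpow_nonneg h0 _)
  rw [sqrt_le_left (by linarith)]
  nlinarith

/-- **Near ergodicity of the standard map, for every large parameter.** -/
theorem result :
    -- (1) estimates for strips, for every parameter
    (∃ C : ℝ, 0 < C ∧ ∀ a : ℝ, 1 ≤ |a| → ∀ T : Torus → Torus, IsStandardMap a T →
      (∀ R : Set Torus, IsVertical R ∨ IsHorizontal R →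
        -- (1a) invariant sets
        (∀ A : Set Torus, MeasurableSet A → T ⁻¹' A =ᵐ[volume] A →
          |area (A ∩ R) - area A * area R| ≤
            C * (area R / |a|) ^ (1 / 6 : ℝ) * √(area A * area Aᶜ)) ∧
        -- (1b) eigenfunctions
        (∀ ζ : ℂ, ‖ζ‖ = 1 → ∀ φ : Torus → ℂ, MemLp φ 2 volume →
          (∀ᵐ p : Torus, φ (T p) = ζ * φ p) →
          ‖(∫ p in R, φ p) - (area R : ℂ) * ∫ p, φ p‖ ≤
            C * (area R / |a|) ^ (1 / 6 : ℝ) * √(∫ p, ‖φ p‖ ^ 2)) ∧
        -- (1c) frequencies of visits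
        (∃ f : Torus → ℝ, IsFrequency T R f ∧ Integrable (fun p => (f p - area R) ^ 2) ∧
          ∫ p, (f p - area R) ^ 2 ≤ C * (area R / |a|) ^ (1 / 3 : ℝ))) ∧
      -- (1d) decay of correlations at finite times
      (∀ R R' : Set Torus, (IsVertical R ∧ IsVertical R') ∨ (IsHorizontal R ∧ IsHorizontal R') →
        ∀ n : ℕ, 3 ≤ n →
          |area (R ∩ T^[n] ⁻¹' R') - area R * area R'| ≤ C * √(n / |a|))) ∧
    -- (2) all Borel sets, in the limit of large parameters
    (∀ B : Set Torus, MeasurableSet B → ∀ ε : ℝ, 0 < ε → ∃ a₀ : ℝ, ∀ a : ℝ, a₀ ≤ |a| →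
      ∀ T : Torus → Torus, IsStandardMap a T →
        -- (2a) invariant sets
        (∀ A : Set Torus, MeasurableSet A → T ⁻¹' A =ᵐ[volume] A →
          |area (A ∩ B) - area A * area B| ≤ ε) ∧
        -- (2b) eigenfunctions
        (∀ ζ : ℂ, ‖ζ‖ = 1 → ∀ φ : Torus → ℂ, AEStronglyMeasurable φ volume →
          (∀ᵐ p : Torus, ‖φ p‖ ≤ 1) → (∀ᵐ p : Torus, φ (T p) = ζ * φ p) →
          ‖(∫ p in B, φ p) - (area B : ℂ) * ∫ p, φ p‖ ≤ ε) ∧
        -- (2c) frequencies of visits
        (∃ f : Torus → ℝ, IsFrequency T B f ∧ Integrable (fun p => (f p - area B) ^ 2) ∧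
          ∫ p, (f p - area B) ^ 2 ≤ ε)) ∧
    -- (3) all pairs of Borel sets: mixing up to times `δ |a|`
    (∀ B B' : Set Torus, MeasurableSet B → MeasurableSet B' → ∀ ε : ℝ, 0 < ε → ∃ δ : ℝ, 0 < δ ∧
      ∀ a : ℝ, ∀ T : Torus → Torus, IsStandardMap a T → ∀ n : ℕ, 3 ≤ n → (n : ℝ) ≤ δ * |a| →
        |area (B ∩ T^[n] ⁻¹' B') - area B * area B'| ≤ ε) := by
  classical
  refine ⟨⟨Y779.SM.C2, Y779.SM.C2_pos, fun a ha T hT => ?_⟩, ?_, ?_⟩
  · obtain rfl := TH705.SM.eq_S a T hT
    refine ⟨fun R hR => ?_, fun R R' hRR n hn => ?_⟩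
    · have hD : Y779.SM.Dec a R := by
        rcases hR with ⟨E, mE, c, r, rfl⟩ | ⟨E, mE, c, r, rfl⟩
        · exact Y779.SM.dec_v a mE c r
        · exact Y779.SM.dec_h a mE c r
      have mR : MeasurableSet R := by
        rcases hR with ⟨E, mE, c, r, rfl⟩ | ⟨E, mE, c, r, rfl⟩
        · exact mE.prod Metric.isClosed_closedBall.measurableSet
        · exact Metric.isClosed_closedBall.measurableSet.prod mE
      refine ⟨fun A mA hA => ?_, fun ζ hζ φ hφ he => ?_, ?_⟩
      · exact (Y779.SM.inv_set ha mR hD mA hA).trans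
          (mul_le_mul_of_nonneg_right (sqrt_ww a R) (sqrt_nonneg _))
      · exact (Y779.SM.eig2 ha mR hD hζ hφ he).trans
          (mul_le_mul_of_nonneg_right (sqrt_ww a R) (sqrt_nonneg _))
      · obtain ⟨f, h1, h2, h3, h4, h5⟩ := Y779.SM.freq ha mR hD
        refine ⟨f, ⟨h1, h2, ?_⟩, h4, h5⟩
        filter_upwards [h3] with p hp
        refine hp.congr fun N => ?_
        rw [ncard_eq]
    · refine Y779.SM.fin_time ha (fun l hl hla n hn => ?_) hn
      rcases hRR with ⟨⟨E, mE, c, r, rfl⟩, ⟨E', mE', c', r', rfl⟩⟩ |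
        ⟨⟨E, mE, c, r, rfl⟩, ⟨E', mE', c', r', rfl⟩⟩
      · exact Y779.SM.vdec hl hla hn mE' mE c' r' c r
      · exact Y779.SM.hdec hl hla hn mE' mE c' r' c r
  · intro B mB ε hε
    obtain ⟨a1, h1⟩ := Y779.SM.asym_inv mB hε
    obtain ⟨a2, h2⟩ := Y779.SM.asym_eig mB hε
    obtain ⟨a3, h3⟩ := Y779.SM.asym_freq mB hε
    refine ⟨max a1 (max a2 a3), fun a ha T hT => ?_⟩
    obtain rfl := TH705.SM.eq_S a T hT
    refine ⟨h1 a ((le_max_left _ _).trans ha), fun ζ hζ φ hφm hφb he => ?_, ?_⟩
    · exact h2 a ((le_max_left _ _).trans ((le_max_right _ _).trans ha)) ζ hζ φ hφm hφb he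
    · obtain ⟨f, k1, k2, k3, k4, k5⟩ := h3 a ((le_max_right _ _).trans ((le_max_right _ _).trans ha))
      refine ⟨f, ⟨k1, k2, ?_⟩, k4, k5⟩
      filter_upwards [k3] with p hp
      refine hp.congr fun N => ?_
      rw [ncard_eq]
  · intro B B' mB mB' ε hε
    obtain ⟨δ, hδ, h⟩ := Y779.SM.asym_mix mB mB' hε
    refine ⟨δ, hδ, fun a T hT n hn hna => ?_⟩
    obtain rfl := TH705.SM.eq_S a T hT
    exact h a n hn hna

end Pool.Agent.Results.MP_9ee088_an.NearErgodicity
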